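import Pool.Agent.J6H9.EW.Stm

/-!
# Project EW: the main argument
-/

set_option autoImplicit false

namespace Pool.Agent.J6H9.EW

open Filter Topology Pool.Agent.J6H9.EU Pool.Agent.J6H9.EV

theorem isW {f : ℕ → ℝ} (hf : ∀ n, 0 < f n) (hs : Tendsto (F f) atTop atTop)
    (hsl : Tendsto (fun n : ℕ => n * f n / F f (n + 1)) atTop (𝓝 0)) : IsW f := by
  refine ⟨fun n => (hf n).le, hs, ?_⟩
  refine squeeze_zero' (Eventually.of_forall fun n => ?_) ?_ hsl
  · exact div_nonneg (hf n).le (Finset.sum_nonneg fun i _ => (hf i).le)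
  · filter_upwards [eventually_ge_atTop 1] with n hn
    have h1 : (1 : ℝ) ≤ n := by exact_mod_cast hn
    have h2 : 0 ≤ F f (n + 1) := Finset.sum_nonneg fun i _ => (hf i).le
    have h3 := hf n
    change f n / F f (n + 1) ≤ _
    gcongr
    nlinarith

theorem isW_one : IsW (fun _ => 1) := by
  refine ⟨fun _ => zero_le_one, ?_, ?_⟩
  · simpa using tendsto_natCast_atTop_atTop (R := ℝ)
  · have := tendsto_one_div_add_atTop_nhds_zero_nat (𝕜 := ℝ)
    refine this.congr fun n => ?_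
    simp

theorem not_incInv (hG : S_GLU) (hH : S_HLF) (h1 : S_ST1) (h2 : S_ST2) {f : ℕ → ℝ} (hf : ∀ n, 0 < f n)
    (ha : Antitone f) (hs : Tendsto (F f) atTop atTop)
    (hsl : Tendsto (fun n : ℕ => n * f n / F f (n + 1)) atTop (𝓝 0)) (ψ : ℕ ⊕ ℕ ≃ ℕ) :
    ¬ IncInv ((fun A : Set (ℕ ⊕ ℕ) => ψ '' A) '' DS (EU fun _ => 1) (EU f)) := by
  intro hI
  have hU := hG f hf hs ψ hI
  obtain ⟨LQ, HQ, LP, HP, q, p, hh⟩ := hH ψ
  exact h2 f hf ha hs ψ hU LQ HQ LP HP q p hh (h1 f hf ha hs hsl ψ hU LQ HQ LP HP q p hh)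

end Pool.Agent.J6H9.EW
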