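import Pool.Agent.J6H9.EV.Stm

/-!
# Project EW (MP_f6e960_lc, third theorem): direct sums

THEOREM: let `f > 0` be nonincreasing, `F n = ∑_{i < n} f i → ∞` and `n f n / F (n + 1) → 0` (e.g. `f n = 1 / (n + 1)`).
The ideal `Z` of the sets of density zero and `EU f` are increasing-invariant Erdős–Ulam ideals, but `Z ⊕ EU f` (an
Erdős–Ulam ideal up to isomorphism) has no increasing-invariant isomorphic copy.
-/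

set_option autoImplicit false

namespace Pool.Agent.J6H9.EW

open Filter Topology Pool.Agent.J6H9.EU Pool.Agent.J6H9.EV

/-- the direct sum -/
def DS (I J : Set (Set ℕ)) : Set (Set (ℕ ⊕ ℕ)) := {A | Sum.inl ⁻¹' A ∈ I ∧ Sum.inr ⁻¹' A ∈ J}

/-- the weights of Erdős–Ulam ideals -/
def IsW (f : ℕ → ℝ) : Prop := (∀ n, 0 ≤ f n) ∧ Tendsto (fun n => ∑ i ∈ Finset.range n, f i) atTop atTop ∧
  Tendsto (fun n => f n / ∑ i ∈ Finset.range (n + 1), f i) atTop (𝓝 0)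

/-- **EW-SUM** (150 lines). The direct sum of two Erdős–Ulam ideals is isomorphic to an Erdős–Ulam ideal. PROOF.
`δ (inl i) = ⌊F i⌋₊`, `δ (inr j) = ⌊G j⌋₊` (partial sums of `f`, `g`) tends to infinity; by
`Pool.Agent.J6H24.EU.Srt.main : S_SRT` (through some `ℕ ⊕ ℕ ≃ ℕ`) there is a bijection `ψ : ℕ ⊕ ℕ ≃ ℕ` with
`δ x < δ y → ψ x < ψ y`. `h (ψ (inl i)) = f i`, `h (ψ (inr j)) = g j`. The elements before `ψ x`, `δ x = v`, contain all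
those with `δ < v` and are contained in those with `δ ≤ v`. The sum of the `f i` with `⌊F i⌋₊ ≤ v` is, for large `v`, at
most `2 v` and that of the `f i` with `⌊F i⌋₊ < v` is at least `v` (it is the `F (i)` of the first `i` with
`v ≤ F i`); the same for `g`. -/
def S_SUM : Prop := ∀ f g : ℕ → ℝ, IsW f → IsW g →
  ∃ ψ : ℕ ⊕ ℕ ≃ ℕ, IsErdosUlam ((fun A : Set (ℕ ⊕ ℕ) => ψ '' A) '' DS (EU f) (EU g))

/-- small pairs of finite sets -/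
def Small (f : ℕ → ℝ) (ε : ℝ) (B₁ B₂ : Finset ℕ) : Prop :=
  (∀ N : ℕ, ((B₁.filter (· < N)).card : ℝ) ≤ ε * N) ∧ ∀ N : ℕ, ∑ j ∈ B₂.filter (· < N), f j ≤ ε * F f N

/-- `C` injects into `B`, backwards in the order given by `ψ` -/
def Dom (ψ : ℕ ⊕ ℕ ≃ ℕ) (B C : Finset (ℕ ⊕ ℕ)) : Prop :=
  ∃ j : ℕ ⊕ ℕ → ℕ ⊕ ℕ, Set.InjOn j C ∧ ∀ c ∈ C, j c ∈ B ∧ ψ (j c) ≤ ψ c

/-- uniform increasing-invariance -/
def Unif (f : ℕ → ℝ) (ψ : ℕ ⊕ ℕ ≃ ℕ) : Prop := ∀ δ : ℝ, 0 < δ → ∃ ε : ℝ, 0 < ε ∧ ∃ M : ℕ,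
  ∀ B₁ B₂ C₁ C₂ : Finset ℕ, (∀ x ∈ B₁, M ≤ x) → (∀ x ∈ B₂, M ≤ x) → (∀ x ∈ C₁, M ≤ x) → (∀ x ∈ C₂, M ≤ x) →
    Small f ε B₁ B₂ → Dom ψ (B₁.disjSum B₂) (C₁.disjSum C₂) → Small f δ C₁ C₂

/-- **EW-GLU** (150 lines). PROOF. Otherwise there is `δ > 0` such that for each `k` there are finite sets
`B^k, C^k` beyond `M_k` (`M_k` larger than all the elements of the earlier ones), `B^k` is `2 ^ (-k)`-small, `C^k` is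
dominated by `B^k` and not `δ`-small. The unions `B` and `C`: `|B₁ ∩ N| / N` is at most (finite) `/ N` plus
`∑_{k ≥ k0} 2 ^ (-k)`, and the same for `B₂`, so `B ∈ DS`; `C ∉ DS` (`|C₁^k ∩ N| > δ N` implies `N > M_k`; one of the two
kinds happens for infinitely many `k`); the injections together give `|ψ(C) ∩ n| ≤ |ψ(B) ∩ n|`. -/
def S_GLU : Prop := ∀ f : ℕ → ℝ, (∀ n, 0 < f n) → Tendsto (F f) atTop atTop → ∀ ψ : ℕ ⊕ ℕ ≃ ℕ,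
  IncInv ((fun A : Set (ℕ ⊕ ℕ) => ψ '' A) '' DS (EU fun _ => 1) (EU f)) → Unif f ψ

/-- dyadic blocks -/
def Bl (c : ℕ) : Finset ℕ := Finset.Ico (2 ^ (c + 1)) (2 ^ (c + 2))

/-- lower and upper halves of the dyadic blocks of the two summands, in the order of `ψ`, and the medians -/
structure Halves (ψ : ℕ ⊕ ℕ ≃ ℕ) (LQ HQ LP HP : ℕ → Finset ℕ) (q p : ℕ → ℕ) : Prop where
  lq : ∀ c, LQ c ⊆ Bl c
  hq : ∀ c, HQ c ⊆ Bl c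
  lp : ∀ c, LP c ⊆ Bl c
  hp : ∀ c, HP c ⊆ Bl c
  clq : ∀ c, (LQ c).card = 2 ^ c
  chq : ∀ c, (HQ c).card = 2 ^ c
  clp : ∀ c, (LP c).card = 2 ^ c
  chp : ∀ c, (HP c).card = 2 ^ c
  lqb : ∀ c, ∀ x ∈ LQ c, ψ (Sum.inl x) < q c
  hqb : ∀ c, ∀ x ∈ HQ c, q c ≤ ψ (Sum.inl x)
  lpb : ∀ c, ∀ x ∈ LP c, ψ (Sum.inr x) < p c
  hpb : ∀ c, ∀ x ∈ HP c, p c ≤ ψ (Sum.inr x)

/-- **EW-HLF** (50 lines). The halves exist (for an injective `g : ℕ → ℕ` and a finite set `P` with `2 m` elements there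
are `L, H ⊆ P` with `m` elements each and `p` with `g < p` on `L` and `p ≤ g` on `H`). -/
def S_HLF : Prop := ∀ ψ : ℕ ⊕ ℕ ≃ ℕ, ∃ (LQ HQ LP HP : ℕ → Finset ℕ) (q p : ℕ → ℕ), Halves ψ LQ HQ LP HP q p

/-- **EW-ST1** (80 lines). PROOF. `Unif` with `δ = 2 ^ (-(r + 3))`. If `p c ≤ q (c + r)` then `LP c` is before
`HQ (c + r)`; `B₂ = LP c`, `C₁` = a subset of `HQ (c + r)` with `2 ^ c` elements; `C₁` is not `δ`-small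
(`N = 2 ^ (c + r + 2)`) and `B₂` is `ε`-small for large `c`: its weight is at most
`2 ^ (c + 1) * f (2 ^ (c + 1)) ≤ ε * F (2 ^ (c + 1) + 1)`, and all its elements are `≥ 2 ^ (c + 1)`. -/
def S_ST1 : Prop := ∀ f : ℕ → ℝ, (∀ n, 0 < f n) → Antitone f → Tendsto (F f) atTop atTop →
  Tendsto (fun n : ℕ => n * f n / F f (n + 1)) atTop (𝓝 0) → ∀ ψ : ℕ ⊕ ℕ ≃ ℕ, Unif f ψ →
  ∀ (LQ HQ LP HP : ℕ → Finset ℕ) (q p : ℕ → ℕ), Halves ψ LQ HQ LP HP q p →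
  ∀ r : ℕ, ∃ c₀ : ℕ, ∀ c, c₀ ≤ c → q (c + r) < p c

/-- **EW-ST2** (120 lines). PROOF. `Unif` with `δ = 1 / 16`, `r` with `2 ^ (-r) ≤ ε`. `a` large, `b ≥ a` with
`F (2 ^ (b + 2)) ≥ 2 F (2 ^ (a + 2))`. `B₁` = the union over `a ≤ c ≤ b` of subsets of `LQ (c + r)` with `2 ^ c` elements,
`C₂` = the union of the `HP c`. If `c` is the largest with `2 ^ (c + r + 1) < N` then
`|B₁ ∩ [0, N)| ≤ ∑_{c' ≤ c} 2 ^ c' < 2 ^ (c + 1) ≤ 2 ^ (-r) N`. The weight of `C₂` is at least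
`∑_{a ≤ c ≤ b} 2 ^ c f (2 ^ (c + 2)) ≥ 1 / 4 * ∑_{a ≤ c ≤ b} (weight of [2 ^ (c + 2), 2 ^ (c + 3)))
≥ 1 / 4 * (F (2 ^ (b + 2)) - F (2 ^ (a + 2)))`, so that it is not `δ`-small (`N = 2 ^ (b + 2)`). -/
def S_ST2 : Prop := ∀ f : ℕ → ℝ, (∀ n, 0 < f n) → Antitone f → Tendsto (F f) atTop atTop →
  ∀ ψ : ℕ ⊕ ℕ ≃ ℕ, Unif f ψ →
  ∀ (LQ HQ LP HP : ℕ → Finset ℕ) (q p : ℕ → ℕ), Halves ψ LQ HQ LP HP q p →
  (∀ r : ℕ, ∃ c₀ : ℕ, ∀ c, c₀ ≤ c → q (c + r) < p c) → False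

end Pool.Agent.J6H9.EW
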